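import Pool.Agent.helper66.M4.Zone2

/-!
# Project M4 (MP_1b8d20, S03975), block II: the FAIL lemma, for all tau (architect helper49)

Fan of the pivot `R = 2 cosh tau`, `tau = lam - i th`, `lam > 0`, `0 < th < pi/2`:
`x_k = 2 i coth(tau) sinh(u_k)`, `u_k = al_k - i b_k`, `al_k = al + k lam`, `b_k = b + k th`.
Throughout `S = sinh(lam)^2`, `C = cos(th)^2`, `rho = S + C = |R|^2/4`,
`|sinh tau|^2 = S + sin(th)^2`.
All rows except the last group are PURELY REAL (no complex numbers).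
Every row: file `Pool/Agent/<seat>/M4F/XX.lean`, namespace `Pool.Agent.M4F`, theorem `XX : XX_stmt`.
-/

set_option autoImplicit false

namespace Pool.Agent.M4F

open Real

/-- `rho = |R|^2/4`. -/
noncomputable def rh (lam th : ℝ) : ℝ := sinh lam ^ 2 + cos th ^ 2

/-- `|sinh tau|^2`. -/
noncomputable def st (lam th : ℝ) : ℝ := sinh lam ^ 2 + sin th ^ 2

/-- `|sinh tau|^2 Re (x / R)` for `x = 2 i coth(tau) sinh(a - i b)`. -/
noncomputable def reF (lam th a b : ℝ) : ℝ :=
  cosh a * sin b * (sinh lam * cos th) - sinh a * cos b * (cosh lam * sin th)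

/-- `|sinh tau|^2 Im x` for `x = 2 i coth(tau) sinh(a - i b)`. -/
noncomputable def imF (lam th a b : ℝ) : ℝ :=
  sinh (2 * lam) * sinh a * cos b + sin (2 * th) * cosh a * sin b

/-- the creation inequality `|x_0 - i x_(-1)| < |R|`; `X = -(al_0 + al_(-1))`,
`psi = b_0 + b_(-1)`. -/
def CrI (lam th X psi : ℝ) : Prop :=
  cosh lam * cosh X - sin th * sinh X - cos th * cos psi - sinh lam * sin psi < st lam th

/-- the lens `|x_k - iR| < |x_(k+1)| < |x_k + iR|` at `u_k = a - i b`. -/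
def Lens (lam th a b : ℝ) : Prop := sinh lam * |sinh a| < sin th * sin b

/-! ## Real rows -/

/-- ROW FRM (form of FAIL).  PROOF.  Put `a' = a + lam`, `b' = b + th`, `0 < b' < 3 pi/2`.
(1) `b' >= pi`: `c = b' - pi`, `0 <= c < th`, `sin b = sin(th - c)`, `cos b = -cos(th - c)`,
`sin b' = -sin c`, `cos b' = -cos c`.  The two hypotheses read
(F) `cosh a sin(th-c) sinh lam cos th + sinh a cos(th-c) cosh lam sin th >= 0` and
(F') `sinh a' cos c cosh lam sin th <= cosh a' sin c sinh lam cos th`.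
Put `p = -a = lam - a'`.  (F): `tanh p / tanh lam <= tan(th-c)/tan th <= (th-c)/th <= 1`
(tan convex on `[0, th]`, vanishing at 0), so `p <= lam`, and if `p > 0` then
`p/lam <= tanh p/tanh lam` (tanh concave), so `p/lam <= 1 - c/th`; in all cases
`a'/lam >= c/th >= 0`.  (F'): `tanh a'/tanh lam <= tan c/tan th <= c/th`, so `a' <= lam` and
`a'/lam <= tanh a'/tanh lam <= c/th`.  If `0 < c` the inequality `tan(th-c)/tan th < (th-c)/th` is
strict (strict convexity): contradiction.  If `c = 0`: (F') gives `a' <= 0`, so `a' = 0` and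
`b' = pi`, excluded by the last hypothesis.
(2) `b' = pi/2`: `reF = cosh a' sinh lam cos th > 0`, contradiction; `pi/2 < b' < pi`: `sin b' > 0`,
`cos b' < 0`, so `reF <= 0` forces `sinh a' < 0`.
(3) `b' < pi/2`: then `0 < b < pi/2`; `reF <= 0` gives `sinh a' > 0` and
`tanh a'/tanh lam >= tan b'/tan th`.  If `a <= 0` then `a' <= lam`, so the left side is `<= 1` and the
right side is `> 1` (`b' > th`).  If `a > 0`: `reF >= 0` gives `tanh a <= q tan b`, `q = tanh lam/tan th`,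
hence `tanh a' < tanh a + tanh lam <= q (tan b + tan th) < q tan(b+th) <= tanh a'`. -/
def FRM_stmt : Prop := ∀ lam th a b : ℝ, 0 < lam → 0 < th → th < π / 2 → 0 < b → b < π →
  0 ≤ reF lam th a b → reF lam th (a + lam) (b + th) ≤ 0 → (a + lam ≠ 0 ∨ b + th ≠ π) →
  a + lam < 0 ∧ π / 2 < b + th ∧ b + th < π

/-- The local FAIL configuration: `a = -al_(k+1) > 0`, `c = pi - b_(k+1)` in `(0, pi/2)`,
lens at `k`, FAIL at `k+1`. -/
structure LF (lam th a c : ℝ) : Prop where
  lam0 : 0 < lam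
  th0 : 0 < th
  th1 : th < π / 2
  a0 : 0 < a
  c0 : 0 < c
  c1 : c < π / 2
  lens : sinh lam * sinh (lam + a) < sin th * sin (th + c)
  fail : cosh a * sin c * (sinh lam * cos th) ≤ sinh a * cos c * (cosh lam * sin th)

/-- ROW STR (the star inequality).  PROOF (one line).  Multiply `lens` by `sinh lam` ... :
`sinh(lam+a) = sinh lam cosh a + cosh lam sinh a`, `sin(th+c) = sin th cos c + cos th sin c`.
Multiply `lens` by `sinh lam cosh a > 0`... in detail: `fail` says
`cosh a sin c sinh lam cos th <= sinh a cos c cosh lam sin th`, so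
`sinh lam cosh a * sin(th+c) <= cos c sin th (sinh lam cosh a + sinh a cosh lam)
 = cos c sin th sinh(lam+a)`.  With `lens` times `sinh lam cosh a`:
`sinh lam^2 cosh a sinh(lam+a) < sin th * sinh lam cosh a sin(th+c) <= sin th^2 cos c sinh(lam+a)`;
cancel `sinh(lam+a) > 0`. -/
def STR_stmt : Prop := ∀ lam th a c : ℝ, LF lam th a c →
  sinh lam ^ 2 * cosh a < sin th ^ 2 * cos c

/-- ROW CBD (the offset of the next zero is not too negative; helper47).  PROOF.  `fail` and
`tanh a <= a` give `a >= tanh a >= (tanh lam/tan th) tan c`.  So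
`-(a - c lam/th) th <= H(c) = lam c - kap tan c`, `kap = th tanh lam/tan th`, `0 < kap <= lam`.
`STR` gives `cos c > sinh lam^2/sin th^2`, `sinh lam < sin th`.
First part: three pieces, see the page (true sup `.176`).
Second part (`rho >= .9`): `cos c >= (9/10 - C)/(1 - C)`, so `c <= .5075` at `th = 1.1`,
`H(c) <= (lam - kap) c - kap c^3/3 <= .1547 th^2` at `th = 1.1`. -/
def CBD_stmt : Prop := ∀ lam th a c : ℝ, LF lam th a c → 1 ≤ 5 * cos th ^ 2 →
  -(th / 5) ≤ a - c * lam / th ∧ (9 / 10 ≤ rh lam th → -(4 / 25 * th) ≤ a - c * lam / th)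

/-- ROW BRA (branch: the creation zero is zero number -1).  Here `a = al_0 < 0`, `b = b_0`.
PROOF.  `psi = 2b - th > -th` is clear.  If `b <= th` then `psi <= b < pi`.  Let `b > th`,
`b1 = b - th` in `(0, pi)`, `sin b1 > 0`, `a - lam < 0`; `imF < 0` forces `cos b1 > 0`, so
`b1 < pi/2` and `psi = th + 2 b1 < th + pi`.  Suppose `psi >= pi`, `p = psi - pi` in `[0, th)`.
If `th >= pi/3`: `b + th < pi` gives `psi < 2 pi - 3 th <= pi`, contradiction.
If `th < pi/3` (`cos th > 1/2`): `cosh lam cosh X - sin th sinh X >= sqrt(cosh lam^2 - sin th^2)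
= sqrt(rho)`, so `sqrt(rho) < st + cos th cos psi + sinh lam sin psi
= S + 1 - C - (cos th cos p + sinh lam sin p)`.  The bracket is a concave function of `p` on
`[0, th]` (it is `>= 0` there, and its second derivative is minus itself), so it is at least
`min(cos th, C + sinh lam sin th)`.
(i) `S + 1 - C - cos th < sqrt(rho)`: with `q = sqrt(rho)`, `cos th < q < 1`:
`q^2 - q + 1 - 2C - cos th < 0` because `q^2 < q` and `2C + cos th > 1`.
(ii) `S + 1 - 2C - sinh lam sin th < sqrt(rho)`: `S <= sinh lam sin th`, `1 - 2C < cos th <= sqrt rho`.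
Both contradict. -/
def BRA_stmt : Prop := ∀ lam th a b : ℝ, 0 < lam → 0 < th → th < π / 2 → sinh lam < sin th →
  0 < b → b + th < π → a < 0 → imF lam th (a - lam) (b - th) < 0 →
  CrI lam th (lam - 2 * a) (2 * b - th) → -th < 2 * b - th ∧ 2 * b - th < π

/-- ROW WST (waist: weighted mean).  PROOF.  Let `j` be the least natural number with
`a + j lam >= -lam/2`; then `j >= m+1`, `|a + j lam| <= lam/2`, and `j-1, j, j+1 >= m`.
Weights `w1 = 1/(4 sin th^2)`, `w0 = 1 - 2 w1 >= 0` (`th >= pi/4`), `w1`.  With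
`sinh^2 + sin^2 = (cosh 2a - cos 2b)/2`: the weighted mean of `cos(2 b_j)` over `j-1, j, j+1` is
`cos(2 b_j)(2 w1 cos 2th + w0) = 0`, the weighted mean of `cosh(2 a_j)` is
`cosh(2 a_j)(2 w1 cosh 2lam + w0) = cosh(2 a_j) st/sin th^2`.  Hence
`M st <= 4 rho * (1/2) cosh(2 a_j) st / sin th^2 <= 2 rho cosh lam st/sin th^2`.
(helper66's `mean_eq` is the same computation.) -/
def WST_stmt : Prop := ∀ (lam th a b M : ℝ) (m : ℕ), 0 < lam → π / 4 ≤ th → th < π / 2 →
  a + m * lam < -(lam / 2) →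
  (∀ j : ℕ, m ≤ j → M * st lam th ≤
    4 * rh lam th * (sinh (a + j * lam) ^ 2 + sin (b + j * th) ^ 2)) →
  M * sin th ^ 2 ≤ 2 * rh lam th * cosh lam

/-- ROW LC1 (local, `5 cos th^2 <= 1`, `a <= lam/2`; helper47).  PROOF.  STR: `cos c > sg cosh a`, `sg = S/sin th^2`.
(A) `sinh a^2 + sin c^2 < cosh a^2 - sg^2 cosh a^2`, and
`4 rho (1 - sg^2)/st = 4 rho (1-rho)/sin th^4` (`st = sin th^2 (1+sg)`, `1 - rho = sin th^2(1-sg)`), so
`|x|^2 < 4 rho(1-rho) cosh a^2/sin th^4 <= 4 rho (1-rho) (1+cosh lam)/(2 sin th^4)`.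
(B) `fail`: `tan c <= tan th tanh a/tanh lam <= t := tan th (1+T)/2`, `T = tanh(lam/2)^2
= (cosh lam - 1)/(cosh lam + 1)`, `sinh a^2 <= (cosh lam - 1)/2`:
`|x|^2 <= 4 rho/(rho+1-2C) * ((cosh lam-1)/2 + t^2/(1+t^2))`.
Numerically `min(A, B) <= 1.4367 < 1.69`; (B) is used up to `rho ~ .72` for `th = 1.1`, `.6` for
`th = 1.2`, `.52` for `th >= 1.27`. -/
def LC1_stmt : Prop := ∀ lam th a c : ℝ, LF lam th a c → 5 * cos th ^ 2 ≤ 1 → a ≤ lam / 2 →
  4 * rh lam th * (sinh a ^ 2 + sin c ^ 2) < 1.69 * st lam th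

/-- ROW LC2 (helper47; local, `5 cos th^2 <= 1`, `a > lam/2`, with the zone inequality).  PROOF.
`sinh a^2 + sinh(lam-a)^2 = cosh(2a-lam) cosh lam - 1`, `sin c^2 + sin(th-c)^2
= 1 - cos(2c-th) cos th`, so the sum of the two left sides is
`4 rho (cosh(2a-lam) cosh lam - cos(2c-th) cos th)`; show that it is `< 3.38 st`.
The zone inequality `1.69 (1-C) <= 2 (S+C) cosh lam` with `C <= .2058` gives `S >= .36`,
`lam >= .568`.  `lens`: `sinh(lam+a) < sin th/sinh lam`, so `a < arsinh(sin th/sinh lam) - lam`, and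
`sin(th+c) > sinh lam sinh(3 lam/2)/sin th`, which gives `cos(2c-th) >= 0`.  So the sum is at most
`4 rho cosh(2a-lam) cosh lam`; numerically at most `2.7832 st` with this bound of `a`. -/
def LC2_stmt : Prop := ∀ lam th a c : ℝ, LF lam th a c → 5 * cos th ^ 2 ≤ 1 → lam / 2 < a →
  1.69 * sin th ^ 2 ≤ 2 * rh lam th * cosh lam →
  4 * rh lam th * (sinh a ^ 2 + sin c ^ 2) < 1.69 * st lam th ∨
  4 * rh lam th * (sinh (lam - a) ^ 2 + sin (th - c) ^ 2) < 1.69 * st lam th

/-- ROW COV (helper26, COVER).  With `D = pi lam/th`, `U` = the supremum over `psi` in `(-th, pi)`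
of `A` under `CrI`: the offset `|A - (m+1) D|` is at most `max(th/5, min(D/2, U - D))`. -/
def COV_stmt : Prop := ∀ lam th X psi A : ℝ, 0 < lam → 0 < th → th ≤ 1 →
  sinh lam < sin th → 163 / 400 ≤ rh lam th → -th < psi → psi < π → CrI lam th X psi →
  A = (X + psi * lam / th) / 2 → -(th / 5) ≤ A - π * lam / th →
  ∃ m : ℕ, 4 * rh lam th * (sinh (|A - (m + 1) * (π * lam / th)| + lam / 2) ^ 2 +
    sin (th / 2) ^ 2) < (if th ≤ 3 / 5 then 1.834 else 1.69) * st lam th

/-- ROW COV2 (helper49; the middle range `1 <= th`, `cos th^2 >= 1/5`).  Side `A <= D`: by the two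
hypotheses on `A - D`: `1.643` for `rho <= .9`, `1.63` for `rho >= .9`.  Side `A > D`: `U - D <= .37`
at `rho = .4075`, `<= .25` at `.46`, `<= .06` at `.57`, negative for `rho >= .62`. -/
def COV2_stmt : Prop := ∀ lam th X psi A : ℝ, 0 < lam → 1 ≤ th → th < π / 2 →
  1 ≤ 5 * cos th ^ 2 →
  sinh lam < sin th → 163 / 400 ≤ rh lam th → -th < psi → psi < π → CrI lam th X psi →
  A = (X + psi * lam / th) / 2 → -(th / 5) ≤ A - π * lam / th →
  (9 / 10 ≤ rh lam th → -(4 / 25 * th) ≤ A - π * lam / th) →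
  ∃ m : ℕ, 4 * rh lam th * (sinh (|A - (m + 1) * (π * lam / th)| + lam / 2) ^ 2 +
    sin (th / 2) ^ 2) < 1.69 * st lam th

/-- The data of a FAIL in real form. -/
structure FD (lam th a b : ℝ) (k : ℕ) : Prop where
  lam0 : 0 < lam
  th0 : 0 < th
  th1 : th < π / 2
  b0 : 0 < b
  b1 : b < π
  rho : 163 / 400 ≤ rh lam th
  cr : CrI lam th (lam - 2 * a) (2 * b - th)
  im : imF lam th (a - lam) (b - th) < 0
  lens : ∀ j : ℕ, j ≤ k → Lens lam th (a + j * lam) (b + j * th)
  re : ∀ j : ℕ, j ≤ k → 0 ≤ reF lam th (a + j * lam) (b + j * th)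
  fail : reF lam th (a + (k + 1) * lam) (b + (k + 1) * th) ≤ 0
  big : ∀ j : ℕ, 1 ≤ j → 1.69 * st lam th ≤
    4 * rh lam th * (sinh (a + j * lam) ^ 2 + sin (b + j * th) ^ 2)
  big2 : ∀ j : ℕ, 2 ≤ j → 1.834 * st lam th ≤
    4 * rh lam th * (sinh (a + j * lam) ^ 2 + sin (b + j * th) ^ 2)

/-- ROW NEA (nearest index).  PROOF.  `j` = nearest integer to `(pi (m+1) - b)/th`, so
`|b + j th - pi(m+1)| <= th/2`; `b + j th >= pi - th/2`.  As `b < (pi+th)/2` (from `2b - th < pi`)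
and `b + th < pi`: `j th >= pi - th/2 - b > th/2`, so `j >= 1`; if `th <= 3/5` then
`j th > pi - th/2 - (pi+th)/2 = pi/2 - th > th`, so `j >= 2`.
`sin(b + j th)^2 = sin(b + j th - pi(m+1))^2 <= sin(th/2)^2`.
`a + j lam = -(A - (m+1) pi lam/th) + (lam/th)(b + j th - pi(m+1))` for `A = b lam/th - a`, so
`|a + j lam| <= |A - (m+1) pi lam/th| + lam/2`, and `sinh^2` is increasing in the absolute value. -/
def NEA_stmt : Prop := ∀ (lam th a b : ℝ) (m : ℕ), 0 < lam → 0 < th → th < π / 2 → 0 < b →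
  b + th < π → 2 * b - th < π → ∃ j : ℕ, 1 ≤ j ∧ (th ≤ 3 / 5 → 2 ≤ j) ∧
    sin (b + j * th) ^ 2 ≤ sin (th / 2) ^ 2 ∧
    sinh (a + j * lam) ^ 2 ≤
      sinh (|(b * lam / th - a) - (m + 1) * (π * lam / th)| + lam / 2) ^ 2

/-- ROW ASR (real assembly).  PROOF.  (1) `b + j th < pi` for `j <= k` by induction: the lens gives
`sin(b + (j+1) th) > 0` and `0 < b + (j+1) th < 3 pi/2`.  (2) FRM at `(a + k lam, b + k th)` (the next
point is not the zero, by `big (k+1)`): `a + (k+1) lam < 0`, `pi/2 < b + (k+1) th < pi`.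
(3) `a' = -(a+(k+1) lam)`, `c = pi - (b + (k+1) th)`: `LF lam th a' c` (lens at `k`; `fail`).
(4) STR: `sinh lam < sin th`.  (5) `5 cos th^2 <= 1`: if `a' <= lam/2` LC1 contradicts `big (k+1)`; if
`a' > lam/2` then WST with `m = k+1`, `M = 1.69` and LC2 contradict `big (k+1)`, `big (k+2)`.
(6) `5 cos th^2 > 1`: `a < 0`, `b + th < pi`; BRA; CBD: with `A = b lam/th - a` one has
`A - pi lam/th = a' - c lam/th`; COV (`th <= 1`) or COV2 with `X = lam - 2a`, `psi = 2b - th`; NEA; contradiction with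
`big2` (`th <= 3/5`) or `big`. -/
def ASR_stmt : Prop := FRM_stmt → STR_stmt → CBD_stmt → BRA_stmt → WST_stmt → LC1_stmt →
  LC2_stmt → COV_stmt → COV2_stmt → NEA_stmt → ∀ (lam th a b : ℝ) (k : ℕ), ¬ FD lam th a b k

end Pool.Agent.M4F
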