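import Pool.Agent.helper49.M4.Spec

/-!
# Project M4, block II: the simplified case split of helper26 (23:15)

(i) `a <= lam/2`: LC1 (`5 cos^2 <= 1`) and LC1b (`1 <= 5 cos^2`).
(ii) `a > lam/2`, `a < c lam/th`: LC3 (all `th`).
(iii) `a > lam/2`, `a >= c lam/th`: LC2 (`5 cos^2 <= 1`), COVA (`1 <= 5 cos^2`).
The rows CBD, COV, COV2 are dropped.
-/

set_option autoImplicit false

namespace Pool.Agent.M4F

open Real

/-- ROW LC1b (helper26).  As LC1, on the other range of `th`: (A) of LC1 for large `rho`, (B) of LC1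
for small `rho`; `min(A, B) <= 1.4424`; (B) alone is at most `1.6693` for `th <= 1`. -/
def LC1b_stmt : Prop := ∀ lam th a c : ℝ, LF lam th a c → 1 ≤ 5 * cos th ^ 2 → a ≤ lam / 2 →
  4 * rh lam th * (sinh a ^ 2 + sin c ^ 2) < 1.69 * st lam th

/-- ROW LC3 (helper66, helper47). -/
def LC3s_stmt : Prop := ∀ lam th a c : ℝ, LF lam th a c → lam / 2 < a → a < c * lam / th →
  4 * rh lam th * (sinh (lam - a) ^ 2 + sin (th - c) ^ 2) < 1.69 * st lam th

/-- ROW COVA (helper26): COVER with `A >= pi lam/th`. -/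
def COVA_stmt : Prop := ∀ lam th X psi A : ℝ, 0 < lam → 0 < th → th < π / 2 →
  1 ≤ 5 * cos th ^ 2 → sinh lam < sin th → 163 / 400 ≤ rh lam th → -th < psi → psi < π →
  CrI lam th X psi → A = (X + psi * lam / th) / 2 → 0 ≤ A - π * lam / th →
  ∃ m : ℕ, 4 * rh lam th * (sinh (|A - (m + 1) * (π * lam / th)| + lam / 2) ^ 2 +
    sin (th / 2) ^ 2) < (if th ≤ 3 / 5 then 1.834 else 1.69) * st lam th

/-- ROW ASR2 (real assembly, new form). -/
def ASR2_stmt : Prop := FRM_stmt → STR_stmt → BRA_stmt → WST_stmt → LC1_stmt → LC1b_stmt →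
  LC2_stmt → LC3s_stmt → COVA_stmt → NEA_stmt → ∀ (lam th a b : ℝ) (k : ℕ), ¬ FD lam th a b k

end Pool.Agent.M4F
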